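import Mathlib

/-!
MP_4f0605_nt (helper76): class count, combinatorial part.  A subset `W` of `F^N`, `F` a finite field with `q` elements,
such that any `m+1` coordinates satisfy a nonzero polynomial relation of degree `≤ d` on `W`, has at most `C q^m` elements.
-/

set_option autoImplicit false

open MvPolynomial

namespace Pool.H76.CC

/-- Any `m+1` coordinates are dependent on `W`. -/
def Dep {F : Type*} [Field F] (N m d : ℕ) (W : Finset (Fin N → F)) : Prop :=
  ∀ e : Fin (m + 1) → Fin N, Function.Injective e → ∃ Q : MvPolynomial (Fin (m + 1)) F, Q ≠ 0 ∧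
    Q.totalDegree ≤ d ∧ ∀ z ∈ W, eval (fun i => z (e i)) Q = 0

/-- The constant. -/
def cc (d : ℕ) : ℕ → ℕ → ℕ
  | 0, _ => 1
  | N + 1, 0 => d * cc d N 0
  | N + 1, m + 1 => cc d N m + d * N ^ (m + 1) * cc d N (m + 1)

variable {F : Type*} [Field F] [DecidableEq F]

/-- The slice `z_0 = a`. -/
def slice {N : ℕ} (W : Finset (Fin (N + 1) → F)) (a : F) : Finset (Fin N → F) :=
  (W.filter fun z => z 0 = a).image fun z i => z i.succ

omit [Field F] in
theorem mem_slice {N : ℕ} (W : Finset (Fin (N + 1) → F)) (a : F) (z : Fin N → F) :
    z ∈ slice W a ↔ (Fin.cons a z : Fin (N + 1) → F) ∈ W := by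
  unfold slice
  rw [Finset.mem_image]
  constructor
  · rintro ⟨w, hw, rfl⟩
    rw [Finset.mem_filter] at hw
    have : (Fin.cons a (fun i => w i.succ) : Fin (N + 1) → F) = w := by
      rw [← hw.2]
      exact Fin.cons_self_tail w
    rw [this]
    exact hw.1
  · intro h
    refine ⟨Fin.cons a z, ?_, ?_⟩
    · rw [Finset.mem_filter]
      exact ⟨h, by simp⟩
    · funext i
      simp

omit [Field F] in
theorem card_slice {N : ℕ} (W : Finset (Fin (N + 1) → F)) (a : F) :
    (W.filter fun z => z 0 = a).card = (slice W a).card := by
  unfold slice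
  rw [Finset.card_image_of_injOn]
  intro z hz w hw h
  rw [Finset.mem_coe, Finset.mem_filter] at hz hw
  funext i
  refine Fin.cases ?_ (fun i => ?_) i
  · rw [hz.2, hw.2]
  · exact congrFun h i

omit [Field F] in
theorem card_eq_sum_slice [Fintype F] {N : ℕ} (W : Finset (Fin (N + 1) → F)) :
    W.card = ∑ a : F, (slice W a).card := by
  rw [Finset.card_eq_sum_card_fiberwise (f := fun z => z 0) (t := Finset.univ)
    (fun z _ => Finset.mem_coe.2 (Finset.mem_univ _))]
  exact Finset.sum_congr rfl fun a _ => card_slice W a

/-- Restriction of the first variable. -/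
noncomputable def spec {m : ℕ} (a : F) (Q : MvPolynomial (Fin (m + 1)) F) :
    MvPolynomial (Fin m) F :=
  Polynomial.eval (C a) (finSuccEquiv F m Q)

omit [DecidableEq F] in
theorem eval_spec {m : ℕ} (a : F) (Q : MvPolynomial (Fin (m + 1)) F) (z : Fin m → F) :
    eval z (spec a Q) = eval (Fin.cons a z : Fin (m + 1) → F) Q := by
  rw [spec, eval_eq_eval_mv_eval', Polynomial.eval_map, ← Polynomial.eval₂_hom, eval_C]

omit [DecidableEq F] in
theorem totalDegree_spec_le {m : ℕ} (a : F) (Q : MvPolynomial (Fin (m + 1)) F) :
    (spec a Q).totalDegree ≤ Q.totalDegree := by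
  rw [spec, Polynomial.eval_eq_sum_range]
  refine totalDegree_finsetSum_le fun i _ => ?_
  rcases eq_or_ne ((finSuccEquiv F m Q).coeff i) 0 with h0 | h0
  · rw [h0, zero_mul, totalDegree_zero]
    exact Nat.zero_le _
  · refine (totalDegree_mul _ _).trans ?_
    have h1 := totalDegree_coeff_finSuccEquiv_add_le Q i h0
    have h2 : ((C a : MvPolynomial (Fin m) F) ^ i).totalDegree = 0 := by
      rw [← C_pow, totalDegree_C]
    omega

theorem card_bad [Fintype F] {m : ℕ} (Q : MvPolynomial (Fin (m + 1)) F) (hQ : Q ≠ 0) :
    (Finset.univ.filter fun a : F => spec a Q = 0).card ≤ Q.totalDegree := by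
  classical
  have hp : finSuccEquiv F m Q ≠ 0 := by
    rw [Ne, EmbeddingLike.map_eq_zero_iff]
    exact hQ
  have h1 : ((Finset.univ.filter fun a : F => spec a Q = 0).image
      (fun a => (C a : MvPolynomial (Fin m) F))) ⊆ (finSuccEquiv F m Q).roots.toFinset := by
    intro x hx
    rw [Finset.mem_image] at hx
    obtain ⟨a, ha, rfl⟩ := hx
    rw [Multiset.mem_toFinset, Polynomial.mem_roots hp, Polynomial.IsRoot.def]
    exact (Finset.mem_filter.1 ha).2
  have h2 := Finset.card_le_card h1
  rw [Finset.card_image_of_injective _ (C_injective _ _)] at h2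
  refine h2.trans ((Multiset.toFinset_card_le _).trans ((Polynomial.card_roots' _).trans ?_))
  rw [natDegree_finSuccEquiv]
  exact degreeOf_le_totalDegree _ _

theorem Dep.slice_succ {N m d : ℕ} {W : Finset (Fin (N + 1) → F)} (h : Dep (N + 1) m d W) (a : F) :
    Dep N m d (slice W a) := by
  intro e he
  obtain ⟨Q, hQ, hd, hz⟩ := h (fun i => (e i).succ) ((Fin.succ_injective N).comp he)
  refine ⟨Q, hQ, hd, fun z hzW => ?_⟩
  have := hz _ ((mem_slice W a z).1 hzW)
  simpa using this

theorem Dep.slice_pred {N m d : ℕ} {W : Finset (Fin (N + 1) → F)} (a : F)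
    (Q : (Fin (m + 1) → Fin N) → MvPolynomial (Fin (m + 1 + 1)) F)
    (hd : ∀ e, Function.Injective e → (Q e).totalDegree ≤ d)
    (hz : ∀ e, Function.Injective e → ∀ z ∈ W,
      eval (fun i => z ((Fin.cons 0 (fun j => (e j).succ) : Fin (m + 1 + 1) → Fin (N + 1)) i))
        (Q e) = 0)
    (ha : ∀ e, Function.Injective e → spec a (Q e) ≠ 0) :
    Dep N m d (slice W a) := by
  intro e he
  refine ⟨spec a (Q e), ha e he, (totalDegree_spec_le _ _).trans (hd e he), fun z hzW => ?_⟩
  rw [eval_spec]
  have h1 := hz e he _ ((mem_slice W a z).1 hzW)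
  convert h1 using 2
  congr 1
  funext i
  refine Fin.cases ?_ (fun i => ?_) i
  · simp
  · simp

/-- The class count over a finite field. -/
theorem card_le_of_dep [Fintype F] (d N m : ℕ) (W : Finset (Fin N → F)) (h : Dep N m d W) :
    W.card ≤ cc d N m * Fintype.card F ^ m := by
  classical
  induction N generalizing m with
  | zero =>
    have h1 : W.card ≤ 1 := Finset.card_le_one.2 fun a _ b _ => Subsingleton.elim a b
    have h2 : 1 ≤ Fintype.card F ^ m := Nat.one_le_pow _ _ Fintype.card_pos
    simp only [cc, one_mul]
    omega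
  | succ N ih =>
    rw [card_eq_sum_slice]
    cases m with
    | zero =>
      simp only [cc, pow_zero, mul_one]
      obtain ⟨Q, hQ, hd, hz⟩ := h (fun _ => 0)
        (fun i j _ => Subsingleton.elim (α := Fin 1) i j)
      have hsl : ∀ a : F, (slice W a).card ≤ cc d N 0 := fun a => by
        simpa using ih 0 (slice W a) (h.slice_succ a)
      have hbad : ∀ a : F, slice W a ≠ ∅ → spec a Q = 0 := by
        intro a ha
        obtain ⟨z, hz'⟩ := Finset.nonempty_iff_ne_empty.2 ha
        have h1 := hz _ ((mem_slice W a z).1 hz')
        -- `spec a Q` is a constant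
        have h2 : eval (Fin.elim0 : Fin 0 → F) (spec a Q) = 0 := by
          rw [eval_spec]
          convert h1 using 2
          congr 1
          funext i
          refine Fin.cases ?_ (fun i => i.elim0) i
          simp
        have h3 := eq_C_of_isEmpty (spec a Q)
        rw [h3, eval_C] at h2
        rw [h3, h2, C_0]
      calc ∑ a : F, (slice W a).card
          = ∑ a ∈ Finset.univ.filter (fun a : F => spec a Q = 0), (slice W a).card := by
            rw [Finset.sum_filter]
            refine Finset.sum_congr rfl fun a _ => ?_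
            by_cases ha : slice W a = ∅
            · rw [ha, Finset.card_empty, ite_self]
            · rw [if_pos (hbad a ha)]
        _ ≤ ∑ _a ∈ Finset.univ.filter (fun a : F => spec a Q = 0), cc d N 0 :=
            Finset.sum_le_sum fun a _ => hsl a
        _ = (Finset.univ.filter (fun a : F => spec a Q = 0)).card * cc d N 0 := by
            rw [Finset.sum_const, smul_eq_mul]
        _ ≤ d * cc d N 0 := Nat.mul_le_mul_right _ ((card_bad Q hQ).trans hd)
    | succ m =>
      -- choose the relations
      have hinj : ∀ e : Fin (m + 1) → Fin N, Function.Injective e →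
          Function.Injective (Fin.cons 0 (fun j => (e j).succ) : Fin (m + 1 + 1) → Fin (N + 1)) := by
        intro e he
        rw [Fin.cons_injective_iff]
        refine ⟨?_, (Fin.succ_injective N).comp he⟩
        rintro ⟨j, hj⟩
        exact Fin.succ_ne_zero _ hj
      have hex : ∀ e : Fin (m + 1) → Fin N, ∃ Q : MvPolynomial (Fin (m + 1 + 1)) F,
          Function.Injective e → (Q ≠ 0 ∧ Q.totalDegree ≤ d ∧ ∀ z ∈ W,
            eval (fun i => z ((Fin.cons 0 (fun j => (e j).succ) :
              Fin (m + 1 + 1) → Fin (N + 1)) i)) Q = 0) := by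
        intro e
        by_cases he : Function.Injective e
        · obtain ⟨Q, hQ⟩ := h _ (hinj e he)
          exact ⟨Q, fun _ => hQ⟩
        · exact ⟨0, fun he' => absurd he' he⟩
      choose Q hQ using hex
      set bad : Finset F := Finset.univ.filter fun a : F =>
        ∃ e : Fin (m + 1) → Fin N, Function.Injective e ∧ spec a (Q e) = 0 with hbad
      have hcard : bad.card ≤ N ^ (m + 1) * d := by
        have h1 : bad ⊆ (Finset.univ : Finset (Fin (m + 1) → Fin N)).biUnion
            (fun e => if Function.Injective e then
              Finset.univ.filter fun a : F => spec a (Q e) = 0 else ∅) := by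
          intro a ha
          obtain ⟨e, he, hae⟩ := (Finset.mem_filter.1 ha).2
          rw [Finset.mem_biUnion]
          refine ⟨e, Finset.mem_univ _, ?_⟩
          rw [if_pos he]
          exact Finset.mem_filter.2 ⟨Finset.mem_univ _, hae⟩
        refine (Finset.card_le_card h1).trans ((Finset.card_biUnion_le_card_mul _ _ d ?_).trans ?_)
        · intro e _
          by_cases he : Function.Injective e
          · rw [if_pos he]
            exact (card_bad _ (hQ e he).1).trans (hQ e he).2.1
          · rw [if_neg he, Finset.card_empty]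
            exact Nat.zero_le _
        · rw [Finset.card_univ, Fintype.card_fun, Fintype.card_fin, Fintype.card_fin]
      have hgood : ∀ a : F, a ∉ bad → (slice W a).card ≤ cc d N m * Fintype.card F ^ m := by
        intro a ha
        refine ih m _ (Dep.slice_pred a Q (fun e he => (hQ e he).2.1)
          (fun e he => (hQ e he).2.2) ?_)
        intro e he h0
        exact ha (Finset.mem_filter.2 ⟨Finset.mem_univ _, e, he, h0⟩)
      have hall : ∀ a : F, (slice W a).card ≤ cc d N (m + 1) * Fintype.card F ^ (m + 1) :=
        fun a => ih (m + 1) _ (h.slice_succ a)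
      calc ∑ a : F, (slice W a).card
          ≤ ∑ a : F, (cc d N m * Fintype.card F ^ m +
              if a ∈ bad then cc d N (m + 1) * Fintype.card F ^ (m + 1) else 0) := by
            refine Finset.sum_le_sum fun a _ => ?_
            by_cases ha : a ∈ bad
            · rw [if_pos ha]
              exact (hall a).trans (Nat.le_add_left _ _)
            · rw [if_neg ha]
              exact hgood a ha
        _ = Fintype.card F * (cc d N m * Fintype.card F ^ m) +
              bad.card * (cc d N (m + 1) * Fintype.card F ^ (m + 1)) := by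
            rw [Finset.sum_add_distrib, Finset.sum_const, smul_eq_mul, Finset.card_univ,
              ← Finset.sum_filter, Finset.sum_const, smul_eq_mul]
            congr 3
            ext a
            simp
        _ ≤ Fintype.card F * (cc d N m * Fintype.card F ^ m) +
              (N ^ (m + 1) * d) * (cc d N (m + 1) * Fintype.card F ^ (m + 1)) := by
            gcongr
        _ = cc d (N + 1) (m + 1) * Fintype.card F ^ (m + 1) := by
            simp only [cc]
            ring

end Pool.H76.CC
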