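import Pool.Agent.H19.N64.RecDefs
import Pool.Agent.H76.CC.Comb
import Pool.Agent.H76.NN.Basic

/-!
MP_4f0605_nt (helper76): the class count `CCP`.
-/

set_option autoImplicit false

open Filter MvPolynomial Pool.H76.NN Pool.Agent.H19.N64

namespace Pool.H76.CC

theorem exists_int_primitive {τ : Type*} (G : MvPolynomial τ ℚ) (hG : G ≠ 0) :
    ∃ H : MvPolynomial τ ℤ, H.totalDegree ≤ G.totalDegree ∧
      (∀ p : ℕ, p.Prime → map (Int.castRingHom (ZMod p)) H ≠ 0) ∧
      ∃ c : ℚ, map (Int.castRingHom ℚ) H = C c * G := by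
  classical
  obtain ⟨b, hb⟩ := IsLocalization.exist_integer_multiples_of_finset (nonZeroDivisors ℤ)
    (G.support.image fun m => G.coeff m)
  have hb' : ∀ m : τ →₀ ℕ, ∃ a : ℤ, m ∈ G.support → (a : ℚ) = ((b : ℤ) : ℚ) * G.coeff m := by
    intro m
    by_cases hm : m ∈ G.support
    · obtain ⟨a, ha⟩ := hb _ (Finset.mem_image_of_mem _ hm)
      refine ⟨a, fun _ => ?_⟩
      rw [← eq_intCast (algebraMap ℤ ℚ) a, ha, Algebra.smul_def]
      rfl
    · exact ⟨0, fun h => absurd h hm⟩
  choose a ha using hb'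
  have hne : G.support.Nonempty := support_nonempty.2 hG
  obtain ⟨g, hg, hg1⟩ := Finset.extract_gcd a hne
  have hbne : ((b : ℤ) : ℚ) ≠ 0 := by
    have := nonZeroDivisors.ne_zero b.2
    exact_mod_cast this
  have hgcd : ((G.support.gcd a : ℤ) : ℚ) ≠ 0 := by
    intro h0
    have h0' : G.support.gcd a = 0 := by exact_mod_cast h0
    obtain ⟨m, hm⟩ := hne
    have h1 := hg m hm
    rw [h0', zero_mul] at h1
    have h2 := ha m hm
    rw [h1, Int.cast_zero] at h2
    exact (mul_ne_zero hbne (mem_support_iff.1 hm)) h2.symm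
  refine ⟨∑ m ∈ G.support, monomial m (g m), ?_, ?_, ((b : ℤ) : ℚ) / ((G.support.gcd a : ℤ) : ℚ),
    ?_⟩
  · refine totalDegree_finsetSum_le fun m hm => ?_
    exact (totalDegree_monomial_le m (g m)).trans (le_totalDegree hm)
  · intro p hp h0
    have hcoef : ∀ m ∈ G.support, (p : ℤ) ∣ g m := by
      intro m hm
      have h1 := congrArg (coeff m) h0
      rw [coeff_map, coeff_sum, coeff_zero] at h1
      have h2 : ∑ x ∈ G.support, coeff m (monomial x (g x)) = g m := by
        rw [Finset.sum_eq_single m]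
        · rw [coeff_monomial, if_pos rfl]
        · intro x _ hx
          rw [coeff_monomial, if_neg hx]
        · intro h; exact absurd hm h
      rw [h2] at h1
      exact (ZMod.intCast_zmod_eq_zero_iff_dvd _ _).1 (by simpa using h1)
    have h3 : (p : ℤ) ∣ 1 := by
      rw [← hg1]
      exact Finset.dvd_gcd hcoef
    have h4 := Int.isUnit_iff.1 (isUnit_of_dvd_one h3)
    have h5 := hp.two_le
    omega
  · rw [map_sum]
    simp only [map_monomial]
    ext m
    rw [coeff_sum, coeff_C_mul]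
    by_cases hm : m ∈ G.support
    · rw [Finset.sum_eq_single m]
      · rw [coeff_monomial, if_pos rfl]
        have h1 := ha m hm
        have h2 := hg m hm
        rw [h2] at h1
        push_cast at h1
        rw [div_mul_eq_mul_div, ← h1, eq_intCast, mul_comm, mul_div_assoc, div_self hgcd, mul_one]
      · intro x _ hx
        rw [coeff_monomial, if_neg hx]
      · intro h; exact absurd hm h
    · rw [Finset.sum_eq_zero]
      · rw [notMem_support_iff.1 hm, mul_zero]
      · intro x hx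
        rw [coeff_monomial, if_neg]
        rintro rfl
        exact hm hx

theorem coeff_rep {τ : Type} (Q : MvPolynomial τ KU) (j : ℕ) (m : τ →₀ ℕ)
    (hm : m ∈ Q.support) : (rep Q j).coeff m = lft (Q.coeff m) j := by
  classical
  unfold rep
  rw [coeff_sum, Finset.sum_eq_single m]
  · rw [coeff_monomial, if_pos rfl]
  · intro x _ hx
    rw [coeff_monomial, if_neg hx]
  · intro h; exact absurd hm h

theorem totalDegree_rep_le {τ : Type} (Q : MvPolynomial τ KU) (j : ℕ) :
    (rep Q j).totalDegree ≤ Q.totalDegree := by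
  unfold rep
  refine totalDegree_finsetSum_le fun m hm => ?_
  exact (totalDegree_monomial_le m _).trans (le_totalDegree hm)

theorem ev_rep_ne_zero {τ : Type} (Q : MvPolynomial τ KU) (hQ : Q ≠ 0) :
    ∀ᶠ j in UF, rep Q j ≠ 0 := by
  obtain ⟨m, hm⟩ := support_nonempty.2 hQ
  have h1 : Q.coeff m ≠ 0 := mem_support_iff.1 hm
  have h2 : ¬ ∀ᶠ j in UF, lft (Q.coeff m) j = 0 := by
    intro h
    refine h1 ?_
    rw [← lft_spec (Q.coeff m)]
    exact Germ.coe_eq.2 h
  have h3 : ∀ᶠ j in UF, ¬ lft (Q.coeff m) j = 0 := Ultrafilter.eventually_not.mpr h2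
  filter_upwards [h3] with j hj h0
  refine hj ?_
  rw [← coeff_rep Q j m hm, h0, coeff_zero]

/-- A relation over the ultrapower gives relations over the residue fields. -/
theorem rel_transfer {σ τ : Type} [Fintype σ] [Fintype τ] (Q : MvPolynomial τ KU) (hQ : Q ≠ 0)
    (f : τ → σ) (S : ℕ → Finset (σ → ℤ))
    (h : ∀ z : ℕ → σ → ℤ, (∀ᶠ j in UF, z j ∈ S j) → eval (fun t => gp z (f t)) Q = 0) :
    ∀ᶠ j in UF, ∃ H : MvPolynomial τ ℤ, H.totalDegree ≤ Q.totalDegree ∧
      (∀ p : ℕ, p.Prime → map (Int.castRingHom (ZMod p)) H ≠ 0) ∧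
      ∀ z ∈ S j, eval (fun t => z (f t)) H = 0 := by
  have h1 : ∀ᶠ j in UF, ∀ z ∈ S j, eval (fun t => ((z (f t) : ℤ) : ℚ)) (rep Q j) = 0 := by
    by_contra hcon
    have h2 : ∀ᶠ j in UF, ¬ ∀ z ∈ S j, eval (fun t => ((z (f t) : ℤ) : ℚ)) (rep Q j) = 0 :=
      Ultrafilter.eventually_not.mpr hcon
    have h3 : ∀ j, ∃ z : σ → ℤ, (¬ ∀ z ∈ S j, eval (fun t => ((z (f t) : ℤ) : ℚ)) (rep Q j) = 0) →
        z ∈ S j ∧ eval (fun t => ((z (f t) : ℤ) : ℚ)) (rep Q j) ≠ 0 := by
      intro j
      by_cases hj : ∀ z ∈ S j, eval (fun t => ((z (f t) : ℤ) : ℚ)) (rep Q j) = 0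
      · exact ⟨0, fun h' => absurd hj h'⟩
      · have hj' := hj
        push Not at hj'
        obtain ⟨z, hz, hz'⟩ := hj'
        exact ⟨z, fun _ => ⟨hz, hz'⟩⟩
    choose z hz using h3
    have h4 : ∀ᶠ j in UF, z j ∈ S j := by
      filter_upwards [h2] with j hj using (hz j hj).1
    have h5 := h z h4
    have h6 : eval (gp (fun j t => z j (f t))) Q = 0 := h5
    rw [eval_gp_eq_zero] at h6
    obtain ⟨j, hj1, hj2⟩ := (h6.and h2).exists
    exact (hz j hj2).2 hj1
  filter_upwards [h1, ev_rep_ne_zero Q hQ] with j hj1 hj2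
  obtain ⟨H, hH1, hH2, c, hc⟩ := exists_int_primitive (rep Q j) hj2
  refine ⟨H, hH1.trans (totalDegree_rep_le Q j), hH2, fun z hz => ?_⟩
  have h7 : ((eval (fun t => z (f t)) H : ℤ) : ℚ) =
      eval (fun t => ((z (f t) : ℤ) : ℚ)) (map (Int.castRingHom ℚ) H) := by
    rw [eval_map, ← eq_intCast (Int.castRingHom ℚ) (eval (fun t => z (f t)) H), eval₂_comp]
    rfl
  have h8 : ((eval (fun t => z (f t)) H : ℤ) : ℚ) = 0 := by
    rw [h7, hc, map_mul, hj1 z hz, mul_zero]
  exact_mod_cast h8

/-- CLASS COUNT. -/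
theorem ccp (σ : Type) [Fintype σ] [DecidableEq σ] : CCP σ := by
  classical
  intro P hP S hS q hq _
  set N := Fintype.card σ with hN
  set e0 : σ ≃ Fin N := Fintype.equivFin σ with he0
  set m := dim P with hm
  -- the relations over the ultrapower
  have hrel : ∀ e : Fin (m + 1) → Fin N, ∃ Q : MvPolynomial (Fin (m + 1)) KU,
      Function.Injective e → Q ≠ 0 ∧ rename (fun i => e0.symm (e i)) Q ∈ P := by
    intro e
    by_cases he : Function.Injective e
    · have h1 : ¬ AlgebraicIndependent KU (fun i : Fin (m + 1) => xi P (e0.symm (e i))) := by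
        intro h
        have := card_le_dim P _ h
        omega
      rw [algebraicIndependent_iff] at h1
      push Not at h1
      obtain ⟨Q, hQ, hQ0⟩ := h1
      refine ⟨Q, fun _ => ⟨hQ0, ?_⟩⟩
      rw [← ev_eq_zero P, ev_eq_aeval, aeval_rename]
      exact hQ
    · exact ⟨0, fun h => absurd h he⟩
  choose Q hQ using hrel
  set d := Finset.univ.sup (fun e : Fin (m + 1) → Fin N => (Q e).totalDegree) with hd
  refine ⟨cc d N m, ?_⟩
  have h1 : ∀ e : Fin (m + 1) → Fin N, ∀ᶠ j in UF, Function.Injective e →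
      ∃ H : MvPolynomial (Fin (m + 1)) ℤ, H.totalDegree ≤ d ∧
      (∀ p : ℕ, p.Prime → map (Int.castRingHom (ZMod p)) H ≠ 0) ∧
      ∀ z ∈ S j, eval (fun t => z (e0.symm (e t))) H = 0 := by
    intro e
    by_cases he : Function.Injective e
    · have h2 := rel_transfer (Q e) (hQ e he).1 (fun t => e0.symm (e t)) S (fun z hz => by
        have h3 := hS z hz _ (hQ e he).2
        rwa [eval_rename] at h3)
      filter_upwards [h2] with j hj _
      obtain ⟨H, hH1, hH2, hH3⟩ := hj
      exact ⟨H, hH1.trans (Finset.le_sup (f := fun e : Fin (m + 1) → Fin N =>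
        (Q e).totalDegree) (Finset.mem_univ e)), hH2, hH3⟩
    · exact Eventually.of_forall fun j h => absurd h he
  have h2 : ∀ᶠ j in UF, ∀ e : Fin (m + 1) → Fin N, Function.Injective e →
      ∃ H : MvPolynomial (Fin (m + 1)) ℤ, H.totalDegree ≤ d ∧
      (∀ p : ℕ, p.Prime → map (Int.castRingHom (ZMod p)) H ≠ 0) ∧
      ∀ z ∈ S j, eval (fun t => z (e0.symm (e t))) H = 0 := eventually_all.2 h1
  filter_upwards [h2, hq] with j hj hqj
  have : Fact (q j).Prime := ⟨hqj⟩
  set W : Finset (Fin N → ZMod (q j)) :=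
    (S j).image fun z i => ((z (e0.symm i) : ℤ) : ZMod (q j)) with hW
  have hinj : Function.Injective
      (fun w : σ → ZMod (q j) => fun i : Fin N => w (e0.symm i)) := by
    intro w w' h
    funext a
    have := congrFun h (e0 a)
    simpa using this
  have hcard : W.card = ((S j).image fun z a => ((z a : ℤ) : ZMod (q j))).card := by
    have h3 : W = ((S j).image fun z a => ((z a : ℤ) : ZMod (q j))).image
        (fun w : σ → ZMod (q j) => fun i => w (e0.symm i)) := by
      rw [hW, Finset.image_image]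
      rfl
    rw [h3]
    exact Finset.card_image_of_injective _ hinj
  have hdep : Dep N m d W := by
    intro e he
    obtain ⟨H, hH1, hH2, hH3⟩ := hj e he
    refine ⟨map (Int.castRingHom (ZMod (q j))) H, hH2 _ hqj, ?_, ?_⟩
    · refine le_trans ?_ hH1
      exact Finset.sup_mono (support_map_subset _ _)
    · intro w hw
      obtain ⟨z, hz, rfl⟩ := Finset.mem_image.1 hw
      have h4 := hH3 z hz
      have h5 : (Int.castRingHom (ZMod (q j))) (eval (fun t => z (e0.symm (e t))) H) = 0 := by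
        rw [h4, map_zero]
      rw [eval₂_comp] at h5
      rw [eval_map]
      exact h5
  have h6 := card_le_of_dep d N m W hdep
  rw [ZMod.card, hcard] at h6
  convert h6

end Pool.H76.CC
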